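import Mathlib

set_option autoImplicit false

/-!
# A quasigroup of order 17 which satisfies `(xy)y = x(xy)`

The operation is `x * y = x + f (y - x)` on `ℤ / 17` for an explicit permutation `f`, so that all
translations are automorphisms.
-/

namespace Pool.Agent.Results.MP_ab03e0_co.OrderSeventeen

/-- `op` is a quasigroup operation on `S`: for all `a, b` each of the equations `a x = b` and
`x a = b` has exactly one solution. -/
def IsQuasigroup {S : Type} (op : S → S → S) : Prop :=
  (∀ a b, ∃! x, op a x = b) ∧ (∀ a b, ∃! x, op x a = b)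

/-- The permutation `f`. -/
def f : Fin 17 → Fin 17 := ![0, 11, 5, 4, 10, 1, 8, 15, 3, 14, 2, 9, 16, 7, 13, 12, 6]

/-- The operation `x * y = x + f (y - x)` on `ℤ / 17`. -/
def op (x y : Fin 17) : Fin 17 := x + f (y - x)

lemma left_inj : ∀ a x y : Fin 17, op a x = op a y → x = y := by decide +kernel

lemma right_inj : ∀ a x y : Fin 17, op x a = op y a → x = y := by decide +kernel

lemma identity : ∀ x y : Fin 17, op (op x y) y = op x (op x y) := by decide +kernel

/-- There is a quasigroup of order `17` which satisfies `(xy)y = x(xy)` for all `x`, `y`. -/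
theorem result : ∃ (S : Type) (_ : Fintype S) (op : S → S → S), Fintype.card S = 17 ∧
    IsQuasigroup op ∧ ∀ x y : S, op (op x y) y = op x (op x y) := by
  refine ⟨Fin 17, inferInstance, op, Fintype.card_fin 17, ⟨fun a b => ?_, fun a b => ?_⟩, identity⟩
  · obtain ⟨x, hx⟩ := (Finite.injective_iff_surjective.1 (fun x y h => left_inj a x y h)) b
    exact ⟨x, hx, fun y hy => left_inj a y x (hy.trans hx.symm)⟩
  · obtain ⟨x, hx⟩ := (Finite.injective_iff_surjective.1
      (show Function.Injective (fun x => op x a) from fun x y h => right_inj a x y h)) b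
    exact ⟨x, hx, fun y hy => right_inj a y x (hy.trans hx.symm)⟩

end Pool.Agent.Results.MP_ab03e0_co.OrderSeventeen
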